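import Pool.Agent.Helper57.BI.Defs

/-! BI-11: the Lipschitz minorant of a periodic sequence (helper97). -/

namespace Pool.Agent.Helper57.BI

theorem per_sum_one (H : ℕ) (F : ℤ → ℝ) (hF : ∀ i, F (i + H) = F i) :
    ∑ i ∈ Finset.range H, F ((i : ℤ) + 1) = ∑ i ∈ Finset.range H, F i := by
  have h1 := Finset.sum_range_succ (fun i : ℕ => F (i : ℤ)) H
  have h2 := Finset.sum_range_succ' (fun i : ℕ => F (i : ℤ)) H
  have h3 : F (H : ℤ) = F 0 := by simpa using hF 0
  push_cast at h1 h2
  rw [h1] at h2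
  rw [h3] at h2
  linarith

theorem per_sum_neg_one (H : ℕ) (F : ℤ → ℝ) (hF : ∀ i, F (i + H) = F i) :
    ∑ i ∈ Finset.range H, F ((i : ℤ) + (-1)) = ∑ i ∈ Finset.range H, F i := by
  have h := per_sum_one H (fun i => F (i + (-1))) fun i => by
    rw [show i + (H : ℤ) + (-1) = i + (-1) + H by ring, hF]
  rw [← h]
  refine Finset.sum_congr rfl fun i _ => ?_
  congr 1
  ring

/-- the maximal function of the partial sums -/
noncomputable def maxf (v : ℤ → ℝ) (c : ℝ) (σ : ℤ) : ℕ → ℤ → ℝ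
  | 0, _ => 0
  | N + 1, i => max 0 (|v (i + σ) - v i| - c + maxf v c σ N (i + σ))

theorem maxf_nonneg (v : ℤ → ℝ) (c : ℝ) (σ : ℤ) (N : ℕ) (i : ℤ) : 0 ≤ maxf v c σ N i := by
  cases N with
  | zero => exact le_refl _
  | succ N => exact le_max_left _ _

theorem maxf_mono (v : ℤ → ℝ) (c : ℝ) (σ : ℤ) (N : ℕ) (i : ℤ) :
    maxf v c σ N i ≤ maxf v c σ (N + 1) i := by
  induction N generalizing i with
  | zero => exact maxf_nonneg _ _ _ _ _
  | succ N ih =>
    show max 0 (|v (i + σ) - v i| - c + maxf v c σ N (i + σ)) ≤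
      max 0 (|v (i + σ) - v i| - c + maxf v c σ (N + 1) (i + σ))
    exact max_le_max le_rfl (by linarith [ih (i + σ)])

theorem maxf_per (v : ℤ → ℝ) (c : ℝ) (σ : ℤ) (H : ℕ) (hv : ∀ i, v (i + H) = v i) (N : ℕ) (i : ℤ) :
    maxf v c σ N (i + H) = maxf v c σ N i := by
  induction N generalizing i with
  | zero => rfl
  | succ N ih =>
    show max 0 (|v (i + H + σ) - v (i + H)| - c + maxf v c σ N (i + H + σ)) =
      max 0 (|v (i + σ) - v i| - c + maxf v c σ N (i + σ))
    rw [show i + (H : ℤ) + σ = i + σ + H by ring, hv, hv, ih]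

theorem maxf_low (v : ℤ → ℝ) (c : ℝ) (σ : ℤ) (n N : ℕ) (h : n ≤ N) (i : ℤ) :
    v i - v (i + n * σ) - c * n ≤ maxf v c σ N i := by
  induction n generalizing i N with
  | zero => simpa using maxf_nonneg v c σ N i
  | succ n ih =>
    obtain ⟨N', rfl⟩ : ∃ N', N = N' + 1 := ⟨N - 1, by omega⟩
    have h1 := ih N' (by omega) (i + σ)
    refine le_trans ?_ (le_max_right _ _)
    have e : i + ((n + 1 : ℕ) : ℤ) * σ = i + σ + n * σ := by push_cast; ring
    rw [e]
    push_cast
    have h2 := neg_abs_le (v (i + σ) - v i)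
    linarith

open Classical in
theorem one_sided (H : ℕ) (v : ℤ → ℝ) (hv : ∀ i, v (i + H) = v i) (c : ℝ) (hc : 0 < c) (σ : ℤ)
    (hσ : ∀ F : ℤ → ℝ, (∀ i, F (i + H) = F i) →
      ∑ i ∈ Finset.range H, F ((i : ℤ) + σ) = ∑ i ∈ Finset.range H, F i) :
    c * (((Finset.range H).filter fun i : ℕ => ∃ n : ℕ, c * n < v i - v (i + n * σ)).card : ℝ) ≤
        ∑ i ∈ Finset.range H, |v ((i : ℤ) + σ) - v i| := by
  -- a uniform N
  let nn : ℕ → ℕ := fun i => if h : ∃ n : ℕ, c * n < v i - v (i + n * σ) then h.choose else 0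
  set N := (Finset.range H).sup nn with hN
  have hsub : ((Finset.range H).filter fun i : ℕ => ∃ n : ℕ, c * n < v i - v (i + n * σ)) ⊆
      (Finset.range H).filter fun i : ℕ => 0 < maxf v c σ N i := by
    intro i hi
    rw [Finset.mem_filter] at hi ⊢
    refine ⟨hi.1, ?_⟩
    have h1 : c * (nn i : ℕ) < v i - v (i + (nn i : ℕ) * σ) := by
      show c * ((if h : ∃ n : ℕ, c * n < v i - v (i + n * σ) then h.choose else 0 : ℕ) : ℝ) <
        v i - v (i + ((if h : ∃ n : ℕ, c * n < v i - v (i + n * σ) then h.choose else 0 : ℕ) : ℤ) * σ)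
      rw [dif_pos hi.2]
      exact hi.2.choose_spec
    have h2 : nn i ≤ N := Finset.le_sup hi.1
    have h3 := maxf_low v c σ (nn i) N h2 i
    linarith
  have hkey : ∀ i : ℤ, (if 0 < maxf v c σ N i then c else 0) ≤
      |v (i + σ) - v i| + (maxf v c σ N (i + σ) - maxf v c σ N i) := by
    intro i
    split_ifs with h
    · have h1 := maxf_mono v c σ N i
      have h2 : maxf v c σ (N + 1) i = max 0 (|v (i + σ) - v i| - c + maxf v c σ N (i + σ)) := rfl
      rcases le_total (|v (i + σ) - v i| - c + maxf v c σ N (i + σ)) 0 with h3 | h3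
      · rw [max_eq_left h3] at h2
        linarith
      · rw [max_eq_right h3] at h2
        linarith
    · have h1 := maxf_nonneg v c σ N i
      have h2 := maxf_nonneg v c σ N (i + σ)
      have h3 := abs_nonneg (v (i + σ) - v i)
      linarith [not_lt.1 h]
  have hsum : ∑ i ∈ Finset.range H, (if 0 < maxf v c σ N (i : ℤ) then c else 0) ≤
      ∑ i ∈ Finset.range H, |v ((i : ℤ) + σ) - v i| := by
    calc ∑ i ∈ Finset.range H, (if 0 < maxf v c σ N (i : ℤ) then c else 0)
        ≤ ∑ i ∈ Finset.range H, (|v ((i : ℤ) + σ) - v i| +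
            (maxf v c σ N ((i : ℤ) + σ) - maxf v c σ N i)) :=
          Finset.sum_le_sum fun i _ => hkey i
      _ = ∑ i ∈ Finset.range H, |v ((i : ℤ) + σ) - v i| := by
          rw [Finset.sum_add_distrib, Finset.sum_sub_distrib,
            hσ (maxf v c σ N) (maxf_per v c σ H hv N)]
          ring
  have hcard : c * (((Finset.range H).filter fun i : ℕ => 0 < maxf v c σ N i).card : ℝ) =
      ∑ i ∈ Finset.range H, (if 0 < maxf v c σ N (i : ℤ) then c else 0) := by
    rw [← Finset.sum_filter, Finset.sum_const, nsmul_eq_mul, mul_comm]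
  calc c * (((Finset.range H).filter fun i : ℕ => ∃ n : ℕ, c * n < v i - v (i + n * σ)).card : ℝ)
      ≤ c * (((Finset.range H).filter fun i : ℕ => 0 < maxf v c σ N i).card : ℝ) :=
        mul_le_mul_of_nonneg_left (by exact_mod_cast Finset.card_le_card hsub) hc.le
    _ ≤ _ := by rw [hcard]; exact hsum

/-- BI-11 -/
theorem lip_minorant (H : ℕ) (hH : 0 < H) (v : ℤ → ℝ) (hv : ∀ i, v (i + H) = v i) (c : ℝ)
    (hc : 0 < c) :
    ∃ u : ℤ → ℝ, (∀ i, u (i + H) = u i) ∧ (∀ i, |u (i + 1) - u i| ≤ c) ∧ (∀ i, u i ≤ v i) ∧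
      c * (((Finset.range H).filter fun i : ℕ => u i ≠ v i).card : ℝ) ≤
        2 * ∑ i ∈ Finset.range H, |v ((i : ℤ) + 1) - v i| := by
  classical
  have hper : Function.Periodic v (H : ℤ) := hv
  -- v is bounded below
  obtain ⟨B, hB⟩ : ∃ B, ∀ j, B ≤ v j := by
    refine ⟨-∑ i ∈ Finset.range H, |v i|, fun j => ?_⟩
    have hH' : (0 : ℤ) < H := by exact_mod_cast hH
    have h0 : 0 ≤ j % H := Int.emod_nonneg _ hH'.ne'
    have h1 : j % H < H := Int.emod_lt_of_pos _ hH'
    have h2 : v j = v (j % H) := by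
      have := hper.int_mul (j / H) (j % H)
      have e : j % H + (j / H) * (H : ℤ) = j := Int.emod_add_ediv_mul j H
      rw [← this]
      congr 1
      simpa using e.symm
    obtain ⟨m, hm⟩ := Int.eq_ofNat_of_zero_le h0
    have h3 : m ∈ Finset.range H := Finset.mem_range.2 (by omega)
    have h4 := Finset.single_le_sum (f := fun i : ℕ => |v i|) (fun _ _ => abs_nonneg _) h3
    rw [h2, hm]
    have h5 := neg_abs_le (v (m : ℤ))
    have h6 : |v (m : ℤ)| ≤ ∑ i ∈ Finset.range H, |v i| := h4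
    show -∑ i ∈ Finset.range H, |v i| ≤ v (m : ℤ)
    linarith
  have hbdd : ∀ i : ℤ, BddBelow (Set.range fun j : ℤ => v j + c * |((i - j : ℤ) : ℝ)|) := by
    intro i
    refine ⟨B, ?_⟩
    rintro _ ⟨j, rfl⟩
    have := hB j
    have h2 : 0 ≤ c * |((i - j : ℤ) : ℝ)| := mul_nonneg hc.le (abs_nonneg _)
    show B ≤ v j + c * |((i - j : ℤ) : ℝ)|
    linarith
  let u : ℤ → ℝ := fun i => ⨅ j : ℤ, (v j + c * |((i - j : ℤ) : ℝ)|)
  have hu_le : ∀ i j, u i ≤ v j + c * |((i - j : ℤ) : ℝ)| := fun i j => ciInf_le (hbdd i) j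
  have hu_step : ∀ i k : ℤ, |((k : ℤ) : ℝ)| ≤ 1 → u (i + k) ≤ u i + c := by
    intro i k hk
    have : u (i + k) - c ≤ u i := by
      refine le_ciInf fun j => ?_
      have h1 := hu_le (i + k) j
      have h2 : |((i + k - j : ℤ) : ℝ)| ≤ |((i - j : ℤ) : ℝ)| + 1 := by
        have e : ((i + k - j : ℤ) : ℝ) = ((i - j : ℤ) : ℝ) + (k : ℝ) := by push_cast; ring
        rw [e]
        exact (abs_add_le _ _).trans (by linarith)
      have h3 := mul_le_mul_of_nonneg_left h2 hc.le
      linarith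
    linarith
  refine ⟨u, fun i => ?_, fun i => ?_, fun i => ?_, ?_⟩
  · -- periodic
    show (⨅ j : ℤ, (v j + c * |((i + H - j : ℤ) : ℝ)|)) = ⨅ j : ℤ, (v j + c * |((i - j : ℤ) : ℝ)|)
    rw [← (Equiv.addRight (H : ℤ)).iInf_comp]
    refine iInf_congr fun j => ?_
    show v (j + H) + c * |((i + H - (j + H) : ℤ) : ℝ)| = v j + c * |((i - j : ℤ) : ℝ)|
    rw [hv, show i + (H : ℤ) - (j + H) = i - j by ring]
  · rw [abs_le]
    have h1 := hu_step i 1 (by norm_num)
    have h2 := hu_step (i + 1) (-1) (by norm_num)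
    rw [show i + 1 + (-1) = i by ring] at h2
    constructor <;> linarith
  · have := hu_le i i
    simpa using this
  · have hsub : ((Finset.range H).filter fun i : ℕ => u i ≠ v i) ⊆
        ((Finset.range H).filter fun i : ℕ => ∃ n : ℕ, c * n < v i - v (i + n * 1)) ∪
        ((Finset.range H).filter fun i : ℕ => ∃ n : ℕ, c * n < v i - v (i + n * (-1))) := by
      intro i hi
      rw [Finset.mem_filter] at hi
      rw [Finset.mem_union, Finset.mem_filter, Finset.mem_filter]
      have h1 : u i < v i := lt_of_le_of_ne (by simpa using hu_le i i) hi.2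
      obtain ⟨j, hj⟩ := exists_lt_of_ciInf_lt h1
      rcases le_total (i : ℤ) j with hij | hij
      · left
        refine ⟨hi.1, (j - i).toNat, ?_⟩
        have e : (((j - i).toNat : ℕ) : ℤ) = j - i := Int.toNat_of_nonneg (by omega)
        have e' : (((j - i).toNat : ℕ) : ℝ) = |(((i : ℤ) - j : ℤ) : ℝ)| := by
          have : (((j - i).toNat : ℕ) : ℝ) = ((j - i : ℤ) : ℝ) := by exact_mod_cast e
          rw [this, abs_of_nonpos (by exact_mod_cast (by omega : (i : ℤ) - j ≤ 0))]
          push_cast; ring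
        rw [e, e', show (i : ℤ) + (j - i) * 1 = j by ring]
        linarith
      · right
        refine ⟨hi.1, (i - j).toNat, ?_⟩
        have e : (((i - j).toNat : ℕ) : ℤ) = i - j := Int.toNat_of_nonneg (by omega)
        have e' : (((i - j).toNat : ℕ) : ℝ) = |(((i : ℤ) - j : ℤ) : ℝ)| := by
          have : (((i - j).toNat : ℕ) : ℝ) = ((i - j : ℤ) : ℝ) := by exact_mod_cast e
          rw [this, abs_of_nonneg (by exact_mod_cast (by omega : 0 ≤ (i : ℤ) - j))]
        rw [e, e', show (i : ℤ) + (i - j) * (-1) = j by ring]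
        linarith
    have h1 := one_sided H v hv c hc 1 (fun F hF => per_sum_one H F hF)
    have h2 := one_sided H v hv c hc (-1) (fun F hF => per_sum_neg_one H F hF)
    have h3 : ∑ i ∈ Finset.range H, |v ((i : ℤ) + (-1)) - v i| =
        ∑ i ∈ Finset.range H, |v ((i : ℤ) + 1) - v i| := by
      have := per_sum_one H (fun i => |v (i + (-1)) - v i|) fun i => by
        rw [show i + (H : ℤ) + (-1) = i + (-1) + H by ring, hv, hv]
      rw [← this]
      refine Finset.sum_congr rfl fun i _ => ?_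
      show |v ((i : ℤ) + 1 + (-1)) - v ((i : ℤ) + 1)| = |v ((i : ℤ) + 1) - v i|
      rw [show (i : ℤ) + 1 + (-1) = i by ring, abs_sub_comm]
    have h4 : (((Finset.range H).filter fun i : ℕ => u i ≠ v i).card : ℝ) ≤
        (((Finset.range H).filter fun i : ℕ => ∃ n : ℕ, c * n < v i - v (i + n * 1)).card : ℝ) +
        (((Finset.range H).filter fun i : ℕ => ∃ n : ℕ, c * n < v i - v (i + n * (-1))).card : ℝ) := by
      exact_mod_cast (Finset.card_le_card hsub).trans (Finset.card_union_le _ _)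
    have h5 := mul_le_mul_of_nonneg_left h4 hc.le
    have h6 : c * (((Finset.range H).filter fun i : ℕ => u i ≠ v i).card : ℝ) ≤
        2 * ∑ i ∈ Finset.range H, |v ((i : ℤ) + 1) - v i| := by
      rw [mul_add] at h5
      rw [h3] at h2
      linarith
    convert h6

end Pool.Agent.Helper57.BI
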